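import Mathlib
import Pool.Agent.Q170.PerimDef

set_option autoImplicit false

open MeasureTheory Set Filter Topology Metric TopologicalSpace
open scoped ENNReal NNReal
open Pool.Agent.Q170.PerimDef

namespace Pool.Agent.Results.MP_fa2b2f_an.TwoSidedNoClosedRep

/-- There are a complete separable metric space `X` with a Borel measure finite on bounded sets
and a bounded domain `Ω` such that for every `λ > 0` some minimizer of `M~_λ` among all Borel
subsets of `X` has no closed representative. -/
theorem result : ∃ (X : Type) (_ : MetricSpace X) (_ : CompleteSpace X) (_ : SeparableSpace X)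
    (_ : MeasurableSpace X) (_ : BorelSpace X) (m : Measure X) (Ω : Set X),
    (∀ B : Set X, Bornology.IsBounded B → m B < ∞) ∧
    IsOpen Ω ∧ IsConnected Ω ∧ Bornology.IsBounded Ω ∧
    ∀ lam : ℝ, 0 < lam → ∃ E : Set X, IsMinimizerMt m Ω lam E ∧ ¬ HasClosedRep m E := by
  refine ⟨ℝ, inferInstance, inferInstance, inferInstance, inferInstance, inferInstance,
    atomic, Ioo 0 1, fun B _ => atomic_finite B, isOpen_Ioo, isConnected_Ioo one_pos,
    isBounded_Ioo 0 1, fun lam _ => ⟨Ioo 0 1, ⟨measurableSet_Ioo, ?_⟩, no_closed⟩⟩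
  intro A _
  have : Mt atomic (Ioo (0:ℝ) 1) lam (Ioo 0 1) = 0 := by
    unfold Mt
    rw [per_zero]
    simp
  rw [this]
  exact zero_le

end Pool.Agent.Results.MP_fa2b2f_an.TwoSidedNoClosedRep
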